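import Pool.Agent.N798.S.Stm

set_option autoImplicit false

/-!
S/PV (helper933 for project S of helper798): small values of a polynomial on `[1/2, 1]`.
-/

namespace Pool.Agent.N933.S

open Finset Filter Topology Polynomial
open Pool.Agent.N798.S

theorem coeff_bd (s : Multiset ℂ) : ∀ i, ‖((s.map (fun a => X - C a)).prod).coeff i‖ ≤
    (s.map (fun a => 1 + ‖a‖)).prod := by
  induction s using Multiset.induction_on with
  | empty =>
    intro i
    simp only [Multiset.map_zero, Multiset.prod_zero, coeff_one]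
    split_ifs <;> simp
  | cons a s ih =>
    intro i
    simp only [Multiset.map_cons, Multiset.prod_cons]
    set P := (s.map (fun a => X - C a)).prod
    set B := (s.map (fun a => 1 + ‖a‖)).prod
    have hB : 0 ≤ B := (norm_nonneg _).trans (ih 0)
    have h1 : ((X - C a) * P).coeff i = (X * P).coeff i - a * P.coeff i := by
      rw [sub_mul, coeff_sub, coeff_C_mul]
    have h2 : ‖(X * P).coeff i‖ ≤ B := by
      rcases i with _ | i
      · simpa using hB
      · rw [coeff_X_mul]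
        exact ih i
    rw [h1]
    calc ‖(X * P).coeff i - a * P.coeff i‖ ≤ ‖(X * P).coeff i‖ + ‖a * P.coeff i‖ := norm_sub_le _ _
      _ ≤ B + ‖a‖ * B := by
        rw [norm_mul]
        exact add_le_add h2 (mul_le_mul_of_nonneg_left (ih i) (norm_nonneg _))
      _ = _ := by ring

theorem prod_bd (y : ℂ) (ρ : ℝ) (hρ : 0 ≤ ρ) (s : Multiset ℂ)
    (h : ∀ z ∈ s, ρ / 3 * (1 + ‖z‖) ≤ ‖y - z‖) :
    (ρ / 3) ^ Multiset.card s * (s.map (fun a => 1 + ‖a‖)).prod ≤
      ‖((s.map (fun a => X - C a)).prod).eval y‖ := by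
  induction s using Multiset.induction_on with
  | empty => simp
  | cons a s ih =>
    simp only [Multiset.map_cons, Multiset.prod_cons, Multiset.card_cons, eval_mul, eval_sub, eval_X,
      eval_C, norm_mul]
    have h1 := ih fun z hz => h z (Multiset.mem_cons_of_mem hz)
    have h2 := h a (Multiset.mem_cons_self _ _)
    have h0 : 0 ≤ (s.map (fun a => 1 + ‖a‖)).prod :=
      (norm_nonneg _).trans (coeff_bd s 0)
    calc (ρ / 3) ^ (Multiset.card s + 1) * ((1 + ‖a‖) * (s.map (fun a => 1 + ‖a‖)).prod)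
        = (ρ / 3 * (1 + ‖a‖)) * ((ρ / 3) ^ Multiset.card s * (s.map (fun a => 1 + ‖a‖)).prod) := by
          ring
      _ ≤ _ := mul_le_mul h2 h1 (by positivity) (norm_nonneg _)

theorem pv : S_PV := by
  intro J
  refine ⟨(1 / 3) ^ J, by positivity, ?_⟩
  intro b M hM0 hb
  obtain ⟨i, hi⟩ := hb
  rcases hM0.eq_or_lt with rfl | hM
  · refine ⟨∅, by simp, fun ρ _ _ y _ _ => ?_⟩
    rw [mul_zero]
    exact abs_nonneg _
  set Q : ℂ[X] := ∑ i : Fin (J + 1), C ((b i : ℝ) : ℂ) * X ^ (i : ℕ) with hQ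
  have hc : Q.coeff i = ((b i : ℝ) : ℂ) := by
    rw [hQ, finset_sum_coeff]
    rw [Finset.sum_eq_single i]
    · simp
    · intro j _ hj
      rw [coeff_C_mul, coeff_X_pow, if_neg (fun h => hj (Fin.ext h.symm)), mul_zero]
    · intro h
      exact absurd (Finset.mem_univ _) h
  have hQ0 : Q ≠ 0 := by
    intro h
    rw [h, coeff_zero] at hc
    have : b i = 0 := by exact_mod_cast hc.symm
    rw [this, abs_zero] at hi
    linarith
  have hdeg : Q.natDegree ≤ J := by
    refine natDegree_sum_le_of_forall_le _ _ fun j _ => ?_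
    refine (natDegree_C_mul_X_pow_le _ _).trans ?_
    omega
  have hroots : Multiset.card Q.roots ≤ J := (card_roots' Q).trans hdeg
  have hsp : Q = C Q.leadingCoeff * (Q.roots.map (fun a => X - C a)).prod :=
    (IsAlgClosed.splits Q).eq_prod_roots
  refine ⟨(Q.roots.map Complex.re).toFinset, ?_, ?_⟩
  · exact (Multiset.toFinset_card_le _).trans (by rw [Multiset.card_map]; exact hroots)
  intro ρ hρ hρ1 y hy hr
  have hev : Q.eval (y : ℂ) = ((∑ i : Fin (J + 1), b i * y ^ (i : ℕ) : ℝ) : ℂ) := by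
    rw [hQ, eval_finset_sum]
    push_cast
    simp
  have h1 : ∀ z ∈ Q.roots, ρ / 3 * (1 + ‖z‖) ≤ ‖(y : ℂ) - z‖ := by
    intro z hz
    rcases le_total ‖z‖ 2 with h | h
    · have h2 : ρ ≤ |y - z.re| := hr _ (by
        rw [Multiset.mem_toFinset]
        exact Multiset.mem_map_of_mem _ hz)
      have h3 : |y - z.re| ≤ ‖(y : ℂ) - z‖ := by
        have := Complex.abs_re_le_norm ((y : ℂ) - z)
        simpa using this
      nlinarith [norm_nonneg z]
    · have h2 : ‖z‖ - 1 ≤ ‖(y : ℂ) - z‖ := by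
        have h3 := norm_sub_norm_le z (y : ℂ)
        rw [norm_sub_rev] at h3
        have h4 : ‖(y : ℂ)‖ ≤ 1 := by
          rw [Complex.norm_real, Real.norm_eq_abs, abs_of_nonneg (by linarith [hy.1])]
          exact hy.2
        linarith
      have h5 : ρ / 3 * (1 + ‖z‖) ≤ 1 / 3 * (1 + ‖z‖) := by
        have := norm_nonneg z
        gcongr
      linarith
  have h2 := prod_bd (y : ℂ) ρ hρ.le Q.roots h1
  have h3 := coeff_bd Q.roots i
  have h4 : ‖Q.leadingCoeff‖ * ‖((Q.roots.map (fun a => X - C a)).prod).coeff i‖ = |b i| := by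
    rw [← norm_mul, ← coeff_C_mul, ← hsp, hc, Complex.norm_real, Real.norm_eq_abs]
  have h5 : ‖Q.leadingCoeff‖ * ‖((Q.roots.map (fun a => X - C a)).prod).eval (y : ℂ)‖ =
      |∑ i : Fin (J + 1), b i * y ^ (i : ℕ)| := by
    rw [← norm_mul, ← eval_C_mul, ← hsp, hev, Complex.norm_real, Real.norm_eq_abs]
  rw [← h5]
  have h6 : M ≤ ‖Q.leadingCoeff‖ * (Q.roots.map (fun a => 1 + ‖a‖)).prod := by
    calc M ≤ |b i| := hi
      _ = _ := h4.symm
      _ ≤ _ := mul_le_mul_of_nonneg_left h3 (norm_nonneg _)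
  have h7 : (ρ / 3) ^ J ≤ (ρ / 3) ^ Multiset.card Q.roots :=
    pow_le_pow_of_le_one (by positivity) (by linarith) hroots
  calc (1 / 3) ^ J * ρ ^ J * M = (ρ / 3) ^ J * M := by
        rw [← mul_pow]
        congr 2
        ring
    _ ≤ (ρ / 3) ^ Multiset.card Q.roots * (‖Q.leadingCoeff‖ *
        (Q.roots.map (fun a => 1 + ‖a‖)).prod) := mul_le_mul h7 h6 hM.le (by positivity)
    _ = ‖Q.leadingCoeff‖ * ((ρ / 3) ^ Multiset.card Q.roots *
        (Q.roots.map (fun a => 1 + ‖a‖)).prod) := by ring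
    _ ≤ _ := mul_le_mul_of_nonneg_left h2 (norm_nonneg _)

end Pool.Agent.N933.S
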